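import Pool.Agent.J4H58.XC.Stm6
import Pool.Agent.J4H58.XC.Asm3

/-! BOD: the density of the uniform measure of a 1-symmetric convex body (project XC). -/

set_option autoImplicit false

namespace Pool.Agent.J4H36.XC

open MeasureTheory Set Filter Topology ProbabilityTheory
open scoped ENNReal InnerProductSpace
open Pool.Agent.W695.KH (Eu)
open Pool.Agent.J4H58.OC (ordE)
open Pool.Agent.J4H58.XC (Sd rR S_BOD mass)

theorem ordE_closed {n : ℕ} (R : Fin n → Fin n → Prop) : IsClosed (ordE R) := by
  have e : ordE R = ⋂ (i : Fin n) (j : Fin n) (_ : R i j), {x : Eu (Fin n) | x i ≤ x j} := by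
    ext x
    simp [ordE]
  rw [e]
  refine isClosed_iInter fun i => isClosed_iInter fun j => isClosed_iInter fun _ => ?_
  exact isClosed_le (by fun_prop) (by fun_prop)

theorem ordE_convex {n : ℕ} (R : Fin n → Fin n → Prop) : Convex ℝ (ordE R) := by
  intro x hx y hy a b ha hb _ i j hij
  have h1 := hx i j hij
  have h2 := hy i j hij
  show (a • x + b • y) i ≤ (a • x + b • y) j
  simp only [PiLp.add_apply, PiLp.smul_apply, smul_eq_mul]
  exact add_le_add (mul_le_mul_of_nonneg_left h1 ha) (mul_le_mul_of_nonneg_left h2 hb)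

theorem t_BOD : S_BOD := by
  intro n K R _ hK hKc hKi hsym h1 h2
  have hKm : MeasurableSet K := hK.measurableSet
  have hfin : volume K ≠ ⊤ := hK.measure_lt_top.ne
  have hpos : 0 < volume K := lt_of_lt_of_le (isOpen_interior.measure_pos volume hKi)
    (measure_mono interior_subset)
  have hv : 0 < volume.real K := by
    rw [Measure.real]
    exact ENNReal.toReal_pos hpos.ne' hfin
  have hcomp : IsCompact (K ∩ ordE R) := hK.inter_right (ordE_closed R)
  have hconv : Convex ℝ (K ∩ ordE R) := hKc.inter (ordE_convex R)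
  obtain ⟨ρ, hρe⟩ : ∃ ρ : Eu (Fin n) → ℝ, ρ = K.indicator fun _ => (volume.real K)⁻¹ := ⟨_, rfl⟩
  have hin : ∀ x ∈ K, ρ x = (volume.real K)⁻¹ := fun x hx => by rw [hρe, indicator_of_mem hx]
  have hout : ∀ x ∉ K, ρ x = 0 := fun x hx => by rw [hρe, indicator_of_notMem hx]
  have hnn : ∀ x, 0 ≤ ρ x := by
    intro x
    by_cases hx : x ∈ K
    · rw [hin x hx]
      positivity
    · rw [hout x hx]
  have hSd : Sd ρ := by
    refine ⟨hnn, ?_, ?_, ?_⟩
    · rw [hρe]
      exact measurable_const.indicator hKm
    · intro x y t ht0 ht1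
      by_cases hx : x ∈ K
      · by_cases hy : y ∈ K
        · have hz : (1 - t) • x + t • y ∈ K := hKc hx hy (by linarith) ht0.le (by ring)
          rw [hin x hx, hin y hy, hin _ hz, ← Real.rpow_add (inv_pos.2 hv)]
          simp
        · rw [hout y hy, Real.zero_rpow ht0.ne', mul_zero]
          exact hnn _
      · rw [hout x hx, Real.zero_rpow (by linarith), zero_mul]
        exact hnn _
    · intro σ x y hxy
      have hiff : y ∈ K ↔ x ∈ K := by
        refine ⟨fun hy => hsym σ⁻¹ y x (fun i => ?_) hy, fun hx => hsym σ x y hxy hx⟩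
        rw [hxy (σ⁻¹ i)]
        simp
      by_cases hx : x ∈ K
      · rw [hin x hx, hin y (hiff.2 hx)]
      · rw [hout x hx, hout y (fun h => hx (hiff.1 h))]
  have hint : Integrable ρ := by
    rw [hρe, integrable_indicator_iff hKm]
    exact integrableOn_const hfin
  have hone : ∫ x, ρ x = 1 := by
    rw [hρe, integral_indicator hKm, setIntegral_const, smul_eq_mul]
    exact mul_inv_cancel₀ hv.ne'
  have hmass : 0 < ∫ x in ordE R, ρ x := (mass hSd hint hone h1 h2).1
  have hI : ∫ x in ordE R, ρ x = volume.real (K ∩ ordE R) * (volume.real K)⁻¹ := by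
    rw [hρe, setIntegral_indicator hKm, setIntegral_const, smul_eq_mul, inter_comm]
  have hw : 0 < volume.real (K ∩ ordE R) := by
    rw [hI] at hmass
    by_contra h
    have h0 : volume.real (K ∩ ordE R) = 0 := le_antisymm (not_lt.1 h) measureReal_nonneg
    rw [h0, zero_mul] at hmass
    exact lt_irrefl _ hmass
  have hwpos : volume (K ∩ ordE R) ≠ 0 := by
    intro h
    rw [Measure.real, h] at hw
    simp at hw
  have hwtop : volume (K ∩ ordE R) ≠ ⊤ := hcomp.measure_lt_top.ne
  refine ⟨hcomp, hconv, ?_, ρ, hSd, hint, hone, hmass, ?_⟩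
  · by_contra hne
    rw [not_nonempty_iff_eq_empty] at hne
    have hf : frontier (K ∩ ordE R) = K ∩ ordE R := by
      rw [frontier, hcomp.isClosed.closure_eq, hne, sdiff_empty]
    have := hconv.addHaar_frontier volume
    rw [hf] at this
    exact hwpos this
  · have hmeas : MeasurableSet (K ∩ ordE R) := hcomp.measurableSet
    have e : (fun x => ENNReal.ofReal (rR ρ R x)) =
        (K ∩ ordE R).indicator fun _ => (volume (K ∩ ordE R))⁻¹ := by
      funext x
      unfold rR
      by_cases hx : x ∈ ordE R
      · by_cases hxK : x ∈ K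
        · have hm : x ∈ K ∩ ordE R := ⟨hxK, hx⟩
          rw [indicator_of_mem hm, if_pos hx, hin x hxK, hI]
          have e1 : (volume.real K)⁻¹ / (volume.real (K ∩ ordE R) * (volume.real K)⁻¹) =
              (volume.real (K ∩ ordE R))⁻¹ := by
            field_simp
          rw [e1, ENNReal.ofReal_inv_of_pos hw, Measure.real, ENNReal.ofReal_toReal hwtop]
        · have hm : x ∉ K ∩ ordE R := fun h => hxK h.1
          rw [indicator_of_notMem hm, if_pos hx, hout x hxK]
          simp
      · have hm : x ∉ K ∩ ordE R := fun h => hx h.2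
        rw [indicator_of_notMem hm, if_neg hx]
        simp
    rw [e, withDensity_indicator hmeas, withDensity_const]

end Pool.Agent.J4H36.XC
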